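import Pool.Agent.N18.KM.Base
import Pool.Agent.N24.RW.All
import Pool.Agent.N24.KM.All
import Pool.Agent.N603.TH.Vhs

/-!
# MP_eeb1a4_ag: Zilber-Pink for variations of mixed Hodge structure in families with several parameters
# along arbitrary sequences, for almost all multipliers

**The variations.** Let `P` be a system of polynomials in `y_1, …, y_N`, and `A_i`, `B_i` (`i ≤ n`), `U_j`
(`j ≤ k`, `k ≥ 1`) polynomials in `y_1, …, y_N`, with coefficients in `ℤ[t_0, …, t_s]`. For integers
`t_0, …, t_s` let `S_t ⊂ ℂ^N` be the set of the points `y` with `P(y) = 0`,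
`4 A_i(y)³ + 27 B_i(y)² ≠ 0` for all `i` and `U_j(y) ≠ 0` for all `j` (`OnS`). Over `S_t` there are the
elliptic curves `E_i : y² = x³ + A_i x + B_i` and the invertible functions `U_j`, which give extensions
of `ℤ` by `ℤ(1)` (Kummer variations); the sum `V_t` of the variations `R¹π_{i*} ℤ` and of these
extensions is an admissible graded-polarizable variation of mixed Hodge structure. By the elliptic
modular function and the exponential function the quotient `Γ \ D` of the period domain is identified
with `Y(1)^n × G_m^k = ℂ^n × (ℂ^×)^k`, and the period map `Φ` is given by the `j`-invariants and the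
functions `U_j` (`period`); `image` is `Φ(S_t)`. The Hodge subvarieties of `Γ \ D` are the products
`Z × C` of a special subvariety `Z` of `Y(1)^n` and a torsion coset `C`. More generally the constants
of `Z` can be special or integral over the ring `ℤ[Γ]` generated by a given finite set `Γ` of algebraic
numbers, and `C` can be a coset of an algebraic subgroup by a point whose coordinates are units over
`ℤ[Γ]`. `NoAtypicalHodge` says that every irreducible constructible subset `W` of
`Φ(S_t) ∩ (Z × C)` satisfies `dim W + (n + k - m) ≤ dim (Z × C)`, so that, if `dim Φ(S_t) = m`, the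
atypical Hodge locus of `V_t` is empty. (These are definitions of the starting file
`TropicalEllipticFamilies`.)

**The condition.** Let `Q` be a finite system of polynomials which vanish at all points `(Φ(y), y)`,
`y ∈ S_t`, with coefficients in `ℤ[t_0, …, t_s]`. Let `f_1, …, f_M` be nonzero polynomials in
`t_0, …, t_s`, such that each coefficient of `Q` is `f_l ^ e_l · g` with `g ∣ G_l`, and the
hypersurface `f_l = 0` has many points outside of `G_l = 0` modulo primes (`Rich`): either `f_l` is of
degree one in one of the variables and coprime to `G_l` (`LinearIn`; for instance if `f_l = 0` is a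
hyperplane), or, more generally, the sum over all primes `p` of the number of these points modulo `p`,
divided by `p ^ (s + 1)`, diverges. The tropicalization along `f_l` is the set of the `w` in
`(ℚ ∪ {∞})^(n + k + N)` such that for every polynomial of the system the minimum of the numbers
`e_l (coefficient) + β · w` is attained at two different exponents `β` or is infinite (`TropAt`). The
condition `GenericOrders` says that for every type of products `Z × C` of dimension less than
`n + k - m` there is an `l` such that no point of the tropicalization along `f_l` is compatible with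
the type.

**Theorem.** A sequence `c_0, c_1, …` of vectors in `ℤ^(s + 1)` is called good (`Good`) if there is ONE
set `E` of indices of natural density zero, such that for ALL families as above over
`ℤ[t_0, …, t_s]` with the condition (all `n`, `k`, `N`, `m`, all bases, elliptic curves and invertible
functions), the member at `t = c_x` has no atypical Hodge subvarieties in the above sense, for all but
finitely many `x ∉ E`.

1. Let `f_{i,0}, f_{i,1}, …` (`i ≤ s`) be functions which satisfy the hypothesis of Koksma's theorem on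
   `[a_i, b_i]` (`Koksma`). Then `c_x = (⌊f_{i,x}(α_i)⌋)_i` is good for almost all `α` with
   `a_i ≤ α_i ≤ b_i`.
2. Let `a_{i,0}, a_{i,1}, …` (`i ≤ s`) be ANY sequences of real numbers with mutual distances at least
   `δ > 0`, for example any sequences of different integers (`x!`, `2 ^ x`, any enumeration of any
   infinite set of integers or of primes), and possibly all the same. Then `c_x = (⌊a_{i,x} α_i⌋)_i` is
   good for almost all `α ∈ ℝ^(s + 1)`.
3. Let `k_0, k_1, …` be ANY sequence of different natural numbers, and `ξ_i ≠ 0`. Then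
   `c_x = (⌊ξ_i α_i ^ k_x⌋)_i` is good for almost all `α` with all `α_i > 1`.

The case `k = 0` of variations of pure Hodge structure is `MP_0704bf_ag.MetricSequences`. There is no
condition of growth or regularity: the sequences can grow arbitrarily fast.

Proof. A set of integral vectors is pronull if its closure in the product of the `ℤ_p^(s + 1)` over the
primes `p` which do not divide `M` has Haar measure zero, for all `M`. The vectors `t` for which
`f(t) = 0` or `f(t)` has no prime divisor `p > D` which does not divide `G(t)` are a pronull set, by the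
engine of helper24, helper300 and helper765 (written for the random orbits of this page by helper618).
By the theorem of Koksma in several variables almost all metric sequences are in this set only for
indices of density zero (helper24 with the workers of the project KM). There are countably many
`(f, G, D)`, and a diagonal argument gives one set `E`. At places of `ℂ` above `p` the values of the
coefficients of `Q` are `e_l · v(f_l(t))`, and the tropical criterion of the starting library applies
(helper603).
-/

set_option autoImplicit false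

namespace Pool.Agent.Results.MP_eeb1a4_ag.MetricSequences

open MvPolynomial MeasureTheory Filter Topology Pool.Agent.R424.TG

/-- The hypothesis of Koksma's theorem: the functions `f n` are twice continuously differentiable, the
derivatives of different ones differ by at least `δ > 0` on `[a, b]`, and the second derivative of
`f m - f n` does not change its sign there. -/
def Koksma (a b : ℝ) (f : ℕ → ℝ → ℝ) : Prop :=
  (∀ n, ContDiff ℝ 2 (f n)) ∧ ∃ δ : ℝ, 0 < δ ∧ ∀ m n : ℕ, m ≠ n →
    (∀ x ∈ Set.Icc a b, δ ≤ |deriv (f m) x - deriv (f n) x|) ∧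
    ((∀ x ∈ Set.Icc a b, deriv (deriv (f n)) x ≤ deriv (deriv (f m)) x) ∨
      ∀ x ∈ Set.Icc a b, deriv (deriv (f m)) x ≤ deriv (deriv (f n)) x)

/-- `E` has natural density zero. -/
def DensityZero (E : Set ℕ) : Prop :=
  Tendsto (fun N : ℕ => (({x : ℕ | x < N ∧ x ∈ E}.ncard : ℕ) : ℝ) / (N : ℝ)) atTop (𝓝 0)

/-- The value of a polynomial in the parameters at the integral point `t`. -/
noncomputable def valueAt {s : ℕ} (t : Fin (s + 1) → ℤ) : MvPolynomial (Fin (s + 1)) ℤ →+* ℂ :=
  (Int.castRingHom ℂ).comp (eval t)

/-- `f` is of degree one in the variable `i`, and coprime to `G` with respect to this variable. -/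
def LinearIn {s : ℕ} (i : Fin (s + 1)) (f G : MvPolynomial (Fin (s + 1)) ℤ) : Prop :=
  ∃ a b u v R : MvPolynomial (Fin (s + 1)) ℤ, i ∉ a.vars ∧ i ∉ b.vars ∧ i ∉ R.vars ∧ a ≠ 0 ∧
    R ≠ 0 ∧ f = a * X i + b ∧ u * f + v * G = R

/-- The hypersurface `f = 0` has many points outside of `G = 0` modulo primes: `f` is of degree one in
a variable and coprime to `G`, or the sum over the primes `p` of the densities of the points of `f = 0`
outside of `G = 0` modulo `p` diverges. -/
def Rich {s : ℕ} (f G : MvPolynomial (Fin (s + 1)) ℤ) : Prop :=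
  (∃ i, LinearIn i f G) ∨ (f ≠ 0 ∧ ¬ Summable fun p : ℕ => if p.Prime then
    ({v : Fin (s + 1) → ZMod p | aeval v f = 0 ∧ aeval v G ≠ 0}.ncard : ℝ) / (p : ℝ) ^ (s + 1) else 0)

/-- The members with the parameters `c 0, c 1, …` of ALL families over `ℤ[t_0, …, t_s]` of `n`-tuples of
elliptic curves and `k`-tuples of invertible functions, `k ≥ 1`, which satisfy the condition have no
atypical Hodge subvarieties, apart from the indices in one set of density zero and finitely many more,
depending on the family. -/
def Good {s : ℕ} (c : ℕ → Fin (s + 1) → ℤ) : Prop :=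
  ∃ E : Set ℕ, DensityZero E ∧
    ∀ (n k N m M : ℕ) (_ : 1 ≤ k) (κ₀ κ : Type) [Finite κ]
      (P : κ₀ → MvPolynomial (Fin N) (MvPolynomial (Fin (s + 1)) ℤ))
      (A B : Fin n → MvPolynomial (Fin N) (MvPolynomial (Fin (s + 1)) ℤ))
      (U : Fin k → MvPolynomial (Fin N) (MvPolynomial (Fin (s + 1)) ℤ))
      (Q : κ → MvPolynomial ((Fin n ⊕ Fin k) ⊕ Fin N) (MvPolynomial (Fin (s + 1)) ℤ))
      (_ : ∀ (t : Fin (s + 1) → ℤ) (y : Fin N → ℂ), OnS (valueAt t) P A B U y → ∀ q,
          eval₂ (valueAt t) (Sum.elim (period (valueAt t) A B U y) y) (Q q) = 0)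
      (f G : Fin M → MvPolynomial (Fin (s + 1)) ℤ) (_ : ∀ l, Rich (f l) (G l))
      (e : Fin M → κ → (((Fin n ⊕ Fin k) ⊕ Fin N) →₀ ℕ) → ℕ)
      (_ : ∀ l q, ∀ β ∈ (Q q).support, ∃ g, (Q q).coeff β = f l ^ e l q β * g ∧ g ∣ G l)
      (_ : GenericOrders m (fun q => (Q q).support) e)
      (Γ : Finset ℂ) (_ : ∀ γ ∈ Γ, IsAlgebraic ℚ γ) (K : Subfield ℂ) [Countable K]
      (_ : ∀ γ ∈ Γ, γ ∈ K),
      {x : ℕ | x ∉ E ∧ ¬ NoAtypicalHodge (algebraMap (Algebra.adjoin ℤ (Γ : Set ℂ)) ℂ) K m
        (image (valueAt (c x)) P A B U)}.Finite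

theorem good_of {s : ℕ} (c : ℕ → Fin (s + 1) → ℤ) (E : Set ℕ)
    (hE : Tendsto (fun N : ℕ => (({n : ℕ | n < N ∧ n ∈ E}.ncard : ℕ) : ℝ) / (N : ℝ)) atTop (𝓝 0))
    (h : ∀ (f G : MvPolynomial (Fin (s + 1)) ℤ) (D : ℕ), f ≠ 0 → Pool.Agent.N603.TH.Divergent f G →
      {n : ℕ | n ∉ E ∧ ¬ (eval (c n) f ≠ 0 ∧ ∃ p : ℕ, p.Prime ∧ D < p ∧ (p : ℤ) ∣ eval (c n) f ∧
        ¬ (p : ℤ) ∣ eval (c n) G)}.Finite) : Good c := by
  refine ⟨E, hE, ?_⟩
  intro n k N m M _ κ₀ κ _ P A B U Q hQ f G hf e he hgen Γ hΓ K _ hΓK
  obtain ⟨D, hD⟩ := Pool.Agent.N603.TH.local_member K Q f G e he hgen Γ hΓ hΓK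
  have hf' : ∀ l, f l ≠ 0 ∧ Pool.Agent.N603.TH.Divergent (f l) (G l) := by
    intro l
    rcases hf l with ⟨i, hi⟩ | hi
    · exact ⟨Pool.Agent.N603.TH.linear_ne_zero hi, Pool.Agent.N603.TH.divergent_linear hi⟩
    · exact hi
  refine (Set.finite_iUnion fun l : Fin M => h (f l) (G l) D (hf' l).1 (hf' l).2).subset ?_
  rintro x ⟨hxE, hx⟩
  by_contra hcon
  apply hx
  have h1 := hD (c x) fun l => by_contra fun h' => hcon (Set.mem_iUnion.2 ⟨l, hxE, h'⟩)
  exact noAtypicalHodge_of h1
    (Pool.Agent.N603.TH.image_sub (c x) P A B U Q (hQ (c x)))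

theorem result (s : ℕ) :
    (∀ (a b : Fin (s + 1) → ℝ) (f : Fin (s + 1) → ℕ → ℝ → ℝ), (∀ i, a i < b i) →
      (∀ i, Koksma (a i) (b i) (f i)) →
      ∀ᵐ α : Fin (s + 1) → ℝ, (∀ i, α i ∈ Set.Icc (a i) (b i)) → Good fun x i => ⌊f i x (α i)⌋) ∧
    (∀ (a : Fin (s + 1) → ℕ → ℝ) (δ : ℝ), 0 < δ → (∀ i m n, m ≠ n → δ ≤ |a i m - a i n|) →
      ∀ᵐ α : Fin (s + 1) → ℝ, Good fun x i => ⌊a i x * α i⌋) ∧
    (∀ (k : ℕ → ℕ) (ξ : Fin (s + 1) → ℝ), Function.Injective k → (∀ i, ξ i ≠ 0) →
      ∀ᵐ α : Fin (s + 1) → ℝ, (∀ i, 1 < α i) → Good fun x i => ⌊ξ i * α i ^ k x⌋) :=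
  Pool.Agent.N18.KM.parts_pol Pool.Agent.N24.RW.crit Pool.Agent.N24.RW.clo Pool.Agent.N24.KM.main
    (s + 1) Good good_of

end Pool.Agent.Results.MP_eeb1a4_ag.MetricSequences
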