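import Pool.Agent.N375.MV.Unif
import Pool.Agent.Results.MP_eeb1a4_ag.HodgeAlgebraicWindows

/-!
# Hodge generic fibres near the values of multiplicative functions

Let `β_1, …, β_m`, `m ≥ 2`, be rational numbers in `(0, 1)`. The hypergeometric variation of Hodge structure with the exponents
`β_j`, `1 - β_j` (rank `2m`, weight `2m - 1`, all Hodge numbers `1`, for `m = 2`, `β = (1/5, 2/5)` the third cohomology of the
mirror quintics) has generic Mumford-Tate group `GSp(2m)`. Let `f` be a positive multiplicative function of at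
most polynomial growth, linearly bounded and injective at the large primes, for example Euler's function or the sum of the
divisors. There is `c > 0` such that for `d ≥ 1`, `κ ≥ 0`, `d (1 - c) + κ < 1` and `G` with steps bounded below by a positive
constant and growth at most `v^d` (for example `G v = α v^d`) the following holds for all `a ≤ N` but `N / (log N)^U`: the
fibres at the points `z = 1 / n` are Hodge generic for ALL integers `n` of both signs whose absolute value is at distance at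
most `f(a)^κ` from `G (f a)`; uniformly in all rational structures. In particular (`κ < c`, `G v = v`) no special point of the
variation lies at a point `z = ± 1 / n` with `|n - φ(a)| ≤ φ(a)^κ`, for all `a` outside of a set of density zero.

Proof. The starting theorem `HodgeAlgebraicWindows` of this problem shows that the integers `n` such that the fibre at
`z = 1 / n` is not Hodge generic have a power saving, uniformly in the rational structures; such sets are avoided by the
values of multiplicative functions of this kind, together with neighbourhoods (`Pool/Agent/N733/TG`, helper733).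
-/

set_option autoImplicit false

namespace Pool.Agent.Results.MP_eeb1a4_ag.MultiplicativeValues

open Pool.Agent.N733.TG (LM Expanding lm_totient lm_sigma expanding_pow)
open Pool.Agent.N375.MV (keep_windows_unif)
open Pool.Agent.Results.MP_eeb1a4_ag.HodgeAlgebraicWindows (RationalStructure HodgeGeneric House)

/-- the algebraic integers of degree `1` are the integers -/
theorem house_one {T : ℕ} {ξ : ℂ} : House 1 T ξ ↔ ∃ n : ℤ, (n : ℂ) = ξ ∧ |n| ≤ (T : ℤ) := by
  have hdeg : ∀ z : ℂ, IsIntegral ℤ z → (minpoly ℚ z).natDegree ≤ 1 → ∃ n : ℤ, (n : ℂ) = z := by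
    intro z hz h1
    have hzQ : IsIntegral ℚ z := hz.tower_top
    have h2 : (minpoly ℚ z).natDegree = 1 := le_antisymm h1 (minpoly.natDegree_pos hzQ)
    obtain ⟨q, hq⟩ := minpoly.natDegree_eq_one_iff.1 h2
    have h3 : IsIntegral ℤ q := by
      have h4 : Function.Injective (algebraMap ℚ ℂ) := (algebraMap ℚ ℂ).injective
      rw [← isIntegral_algebraMap_iff h4 (R := ℤ)]
      rw [hq]
      exact hz
    obtain ⟨n, hn⟩ := IsIntegrallyClosed.isIntegral_iff.1 h3
    refine ⟨n, ?_⟩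
    rw [← hq, ← hn]
    simp
  constructor
  · rintro ⟨h1, h2, h3⟩
    obtain ⟨n, hn⟩ := hdeg ξ h1 h2
    refine ⟨n, hn, ?_⟩
    have h4 := h3 ξ (minpoly.aeval ℚ ξ)
    rw [← hn, Complex.norm_intCast] at h4
    exact_mod_cast h4
  · rintro ⟨n, rfl, hn⟩
    have hmin : minpoly ℚ (n : ℂ) = Polynomial.X - Polynomial.C (n : ℚ) := by
      have := minpoly.eq_X_sub_C ℂ (n : ℚ)
      simpa using this
    refine ⟨?_, ?_, ?_⟩
    · have := isIntegral_algebraMap (R := ℤ) (A := ℂ) (x := n)
      simpa using this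
    · rw [hmin, Polynomial.natDegree_X_sub_C]
    · intro z hz
      rw [hmin] at hz
      simp only [map_sub, Polynomial.aeval_X, Polynomial.aeval_C] at hz
      have hz' : z = (n : ℂ) := by
        have := sub_eq_zero.1 hz
        simpa using this
      rw [hz', Complex.norm_intCast]
      exact_mod_cast hn

/-- **Hodge generic fibres near the values of multiplicative functions.** Let `m ≥ 2` and let `β_1, …, β_m` be rational
numbers in `(0, 1)`. There is `c > 0` such that: let `d ≥ 1`, `κ ≥ 0`, `d (1 - c) + κ < 1`; let `f` be multiplicative and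
positive, of at most polynomial growth, with `f p ≤ L p` at the large primes, and injective there; let `G` have steps
`≥ a > 0` and growth at most `v^d`. For every `U` and all large `N` and for all rational structures `(C, A)` the following
holds for all `a ≤ N` but `N / (log N)^U`: for ALL integers `n`, `|n| > 1`, with `| |n| - G (f a) | ≤ f(a)^κ` the fibre at
the point `z = 1 / n` of the hypergeometric variation is Hodge generic. Euler's function and the sum of the divisors are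
examples of such functions `f`, and `α v^d` with `α > 0`, `d ≥ 1` is an example of `G`. -/
theorem result :
    (∀ m : ℕ, 2 ≤ m → ∀ β : Fin m → ℚ, (∀ j, 0 < β j ∧ β j < 1) → ∃ c : ℝ, 0 < c ∧
      ∀ d κ : ℝ, 1 ≤ d → 0 ≤ κ → d * (1 - c) + κ < 1 → ∀ f : ℕ → ℕ, LM f → ∀ G : ℕ → ℝ, Expanding G d → ∀ U : ℕ,
      ∃ N₀ : ℕ, ∀ N : ℕ, N₀ ≤ N →
      ∀ (C : Matrix (Fin (2 * m)) (Fin (2 * m)) ℂ) (A : Matrix (Fin (2 * m)) (Fin (2 * m)) ℚ), RationalStructure C A →
      ({a : ℕ | 1 ≤ a ∧ a ≤ N ∧ ∃ n : ℤ, 1 < |n| ∧ |(|n| : ℝ) - G (f a)| ≤ (f a : ℝ) ^ κ ∧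
        ¬ HodgeGeneric β (n : ℂ) C A}.ncard : ℝ) ≤ N / Real.log N ^ U) ∧
    (LM Nat.totient ∧ LM (fun m => ∑ d ∈ m.divisors, d)) ∧
    ∀ α d : ℝ, 0 < α → 1 ≤ d → Expanding (fun v => α * (v : ℝ) ^ d) d := by
  refine ⟨fun m hm β hβ => ?_, ⟨lm_totient, lm_sigma⟩, fun α d hα hd => expanding_pow hα hd⟩
  obtain ⟨c, K, hc, hK⟩ := (HodgeAlgebraicWindows.result hm β hβ).2.2 1 le_rfl
  obtain ⟨c', hc'⟩ : ∃ c' : ℝ, c' = min c 1 := ⟨_, rfl⟩
  have hc'0 : 0 < c' := by rw [hc']; exact lt_min hc one_pos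
  have hc'c : c' ≤ c := by rw [hc']; exact min_le_left _ _
  have hc'1 : c' ≤ 1 := by rw [hc']; exact min_le_right _ _
  refine ⟨c', hc'0, fun d κ hd hκ hdκ f hf G hG U => ?_⟩
  obtain ⟨N₀, hN₀⟩ := keep_windows_unif (T := ℤ) (fun n : ℤ => (|n| : ℝ)) hf hG (s := 1 - c') (κ := κ)
    (by linarith) hκ hdκ (|K| * 3 * 2 ^ c') U
  refine ⟨N₀, fun N hN C A hC => ?_⟩
  have h1 := hN₀ N hN {n : ℤ | 1 < |n| ∧ ¬ HodgeGeneric β (n : ℂ) C A} (fun X hX => by
    obtain ⟨T, hT⟩ : ∃ T : ℕ, T = ⌊X⌋₊ := ⟨_, rfl⟩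
    have hT1 : 1 ≤ T := by rw [hT]; exact Nat.le_floor (by exact_mod_cast hX)
    have hT1' : (1 : ℝ) ≤ T := by exact_mod_cast hT1
    have hTX : (T : ℝ) ≤ X := by rw [hT]; exact Nat.floor_le (by linarith)
    have hXT : X ≤ 2 * T := by
      have := Nat.lt_floor_add_one X
      rw [← hT] at this
      linarith
    have hfin : {t : ℤ | t ∈ {n : ℤ | 1 < |n| ∧ ¬ HodgeGeneric β (n : ℂ) C A} ∧ (|t| : ℝ) ≤ X}.Finite := by
      apply (Set.finite_Icc (-(T : ℤ)) T).subset
      rintro t ⟨-, ht⟩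
      have h2 : |t| ≤ (T : ℤ) := by
        have h3 : ((t.natAbs : ℕ) : ℝ) ≤ X := by
          rw [Nat.cast_natAbs, Int.cast_abs]
          exact ht
        have h4 : t.natAbs ≤ T := by rw [hT]; exact Nat.le_floor h3
        rw [Int.abs_eq_natAbs]
        exact_mod_cast h4
      exact abs_le.1 h2
    refine ⟨hfin, ?_⟩
    have hHfin : {ξ : ℂ | House 1 T ξ}.Finite := by
      have : {ξ : ℂ | House 1 T ξ} ⊆ (fun n : ℤ => (n : ℂ)) '' Set.Icc (-(T : ℤ)) T := by
        rintro ξ hξ
        obtain ⟨n, hn, hnT⟩ := house_one.1 hξ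
        exact ⟨n, abs_le.1 hnT, hn⟩
      exact ((Set.finite_Icc _ _).image _).subset this
    have hHcard : ({ξ : ℂ | House 1 T ξ}.ncard : ℝ) ≤ 3 * T := by
      have h2 : {ξ : ℂ | House 1 T ξ} ⊆ (fun n : ℤ => (n : ℂ)) '' Set.Icc (-(T : ℤ)) T := by
        rintro ξ hξ
        obtain ⟨n, hn, hnT⟩ := house_one.1 hξ
        exact ⟨n, abs_le.1 hnT, hn⟩
      have h3 := (Set.ncard_le_ncard h2 ((Set.finite_Icc _ _).image _)).trans (Set.ncard_image_le (Set.finite_Icc _ _))
      have h4 : (Set.Icc (-(T : ℤ)) T).ncard = 2 * T + 1 := by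
        rw [← Finset.coe_Icc, Set.ncard_coe_finset, Int.card_Icc]
        omega
      rw [h4] at h3
      have h5 : ({ξ : ℂ | House 1 T ξ}.ncard : ℝ) ≤ ((2 * T + 1 : ℕ) : ℝ) := by exact_mod_cast h3
      push_cast at h5
      linarith
    have h2 : {t : ℤ | t ∈ {n : ℤ | 1 < |n| ∧ ¬ HodgeGeneric β (n : ℂ) C A} ∧ (|t| : ℝ) ≤ X}.ncard ≤
        {ξ : ℂ | House 1 T ξ ∧ 1 < ‖ξ‖ ∧ ¬ HodgeGeneric β ξ C A}.ncard := by
      refine Set.ncard_le_ncard_of_injOn (fun n : ℤ => (n : ℂ)) ?_ ?_ (hHfin.subset fun ξ hξ => hξ.1)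
      · rintro t ⟨⟨ht1, ht2⟩, ht⟩
        refine ⟨house_one.2 ⟨t, rfl, ?_⟩, ?_, ht2⟩
        · have h3 : ((t.natAbs : ℕ) : ℝ) ≤ X := by
            rw [Nat.cast_natAbs, Int.cast_abs]
            exact ht
          have h4 : t.natAbs ≤ T := by rw [hT]; exact Nat.le_floor h3
          rw [Int.abs_eq_natAbs]
          exact_mod_cast h4
        · rw [Complex.norm_intCast]
          exact_mod_cast ht1
      · intro a _ b _ hab
        exact Int.cast_injective (α := ℂ) hab
    have h3 := hK C A hC T hT1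
    have e1 : (T : ℝ) ^ (-c) ≤ (T : ℝ) ^ (-c') := Real.rpow_le_rpow_of_exponent_le hT1' (by linarith)
    have e2 : (T : ℝ) ^ (-c') ≤ 2 ^ c' * X ^ (-c') := by
      have e3 : X ^ c' ≤ 2 ^ c' * (T : ℝ) ^ c' := by
        rw [← Real.mul_rpow (by norm_num) (by linarith)]
        exact Real.rpow_le_rpow (by linarith) hXT hc'0.le
      rw [Real.rpow_neg (by linarith), Real.rpow_neg (by linarith), ← div_eq_mul_inv,
        le_div_iff₀ (Real.rpow_pos_of_pos (by linarith) _), inv_mul_le_iff₀ (Real.rpow_pos_of_pos (by linarith) _)]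
      linarith
    have e4 : X ^ (1 - c') = X * X ^ (-c') := by
      rw [sub_eq_add_neg, Real.rpow_add (by linarith), Real.rpow_one]
    calc (({t : ℤ | t ∈ {n : ℤ | 1 < |n| ∧ ¬ HodgeGeneric β (n : ℂ) C A} ∧ (|t| : ℝ) ≤ X}.ncard : ℕ) : ℝ)
        ≤ ({ξ : ℂ | House 1 T ξ ∧ 1 < ‖ξ‖ ∧ ¬ HodgeGeneric β ξ C A}.ncard : ℝ) := by exact_mod_cast h2
      _ ≤ K * (T : ℝ) ^ (-c) * ({ξ : ℂ | House 1 T ξ}.ncard : ℝ) := h3
      _ ≤ |K| * (T : ℝ) ^ (-c') * (3 * T) := by
          have h0 : (0 : ℝ) ≤ (T : ℝ) ^ (-c) := Real.rpow_nonneg (by linarith) _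
          have h6 : K * (T : ℝ) ^ (-c) ≤ |K| * (T : ℝ) ^ (-c') :=
            (mul_le_mul_of_nonneg_right (le_abs_self K) h0).trans (mul_le_mul_of_nonneg_left e1 (abs_nonneg _))
          have h7 : 0 ≤ |K| * (T : ℝ) ^ (-c') := by positivity
          calc K * (T : ℝ) ^ (-c) * ({ξ : ℂ | House 1 T ξ}.ncard : ℝ)
              ≤ |K| * (T : ℝ) ^ (-c') * ({ξ : ℂ | House 1 T ξ}.ncard : ℝ) :=
                mul_le_mul_of_nonneg_right h6 (Nat.cast_nonneg _)
            _ ≤ _ := mul_le_mul_of_nonneg_left hHcard h7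
      _ ≤ |K| * (2 ^ c' * X ^ (-c')) * (3 * X) := by
          apply mul_le_mul _ (by linarith) (by positivity) (by positivity)
          exact mul_le_mul_of_nonneg_left e2 (abs_nonneg _)
      _ = |K| * 3 * 2 ^ c' * X ^ (1 - c') := by
          rw [e4]
          ring)
  refine le_trans ?_ h1
  refine Nat.cast_le.2 (Set.ncard_le_ncard ?_ ((Set.finite_Icc 1 N).subset fun a ha => ⟨ha.1, ha.2.1⟩))
  rintro a ⟨ha1, ha2, n, hn1, hn2, hn3⟩
  exact ⟨ha1, ha2, n, ⟨hn1, hn3⟩, hn2⟩

end Pool.Agent.Results.MP_eeb1a4_ag.MultiplicativeValues
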