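import Pool.Agent.N924.TH.Mix

/-!
# MP_eeb1a4_ag: one set of density zero for all arithmetic families of variations of mixed Hodge
structure

**The families.** The parameter space is the affine space of dimension `s + 1` over `ℤ`, `s` is
arbitrary; `Param s = ℤ[z_1, …, z_s][z_0]`. Let `P` be a system of polynomials in `y_1, …, y_N` with
coefficients in `Param s`, and let `A_i`, `B_i` (`i ≤ n`) and `U_j` (`j ≤ k`) be polynomials of this
kind. For an integral point `z` let `S_z ⊂ ℂ^N` be the set of the points `y` with `P(y) = 0`,
`4 A_i(y)³ + 27 B_i(y)² ≠ 0` for all `i` and `U_j(y) ≠ 0` for all `j` (`OnS`; the coefficients are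
evaluated at `z`). Over `S_z` there are the elliptic curves

  `E_i : Y² = X³ + A_i X + B_i`

and the invertible functions `U_j`, which give extensions of `ℤ` by `ℤ(1)` (Kummer variations); the
sum `V_z` of the variations `R¹π_{i*} ℤ` and of these extensions is an admissible graded-polarizable
variation of mixed Hodge structure (on the smooth part of `S_z`). Its period map `Φ` is given by the
`j`-invariants `6912 A_i³ / (4 A_i³ + 27 B_i²)` and the functions `U_j` (`period`), with values in
`Y(1)^n × G_m^k`; `image` is `Φ(S_z)`. The Hodge subvarieties are the products `Z × C` of a special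
subvariety `Z` of `Y(1)^n` and a torsion coset `C`; we allow more generally the constants which are
special or integral over the ring `ℤ[Γ]` generated by a given finite set of algebraic numbers, and
the cosets of algebraic subgroups by points whose coordinates are units over `ℤ[Γ]`.
`NoAtypicalHodge`: all irreducible constructible subsets and points of `Φ(S_z) ∩ (Z × C)` have the
dimension (transcendence degree over a given countable field) at most `dim (Z × C) + m - (n + k)`,
for all `Z × C`. For `m = dim Φ(S_z)` this says that the atypical Hodge locus of `V_z` is empty.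

**The condition.** `W` is a finite system of polynomials in the coordinates of `Y(1)^n × G_m^k` and
in `y`, with coefficients in `Param s`, which vanish at all points `(Φ(y), y)`, `y ∈ S_z`. Let
`D_1, …, D_M` be divisors of the parameter space which have a zero `z_0 = a / b`,
`a, b ∈ O_K[z_1, …, z_s]`, over some number field `K` (`RationalDivisor`), for example all polynomials of
degree one in `z_0` and all polynomials in `z_0` alone. Let `e l q β` be the order along `D_l` of the
coefficient of the monomial `β` of the `q`-th polynomial of `W` (`HasOrd`). We suppose that for every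
type `(cls, d, L)` of Hodge subvarieties of dimension `r + dim L < n + k - m` there is a divisor `D_l`
such that the tropicalization of `W` along `D_l` (`TropAt`: the minimum of the numbers
`e l q β + β · w` is attained twice or is infinite) has no point `w` which is compatible with the type
(`Compatible`).

**The points.** Let `z_0(t), z_1(t), z_2(t), …` be an infinite sequence of functions of a positive
integer `t` with integral values, any finite number of which is jointly uniformly distributed modulo
all positive integers `q`, for `t` in `(N, 2 N]`, or more generally in given sets `S N ⊆ (N, 2 N]`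
(`UD`). For example, `z_l(t) = ⌊P_l(t)⌋` with generalised polynomials `P(t) = ∑ a_x t ^ x` (finitely
many real exponents, real coefficients, depending on `l`) with distinct leading exponents which are
positive and not integers and have positive coefficients, as `P_l(t) = t ^ (2 l + √2)`; these are
uniformly distributed along all integers and along the primes.

**Theorem.** There is ONE set `E` of density zero (relative to the sets `S N`; for the `⌊P_l(t)⌋` it has
natural density zero and also density zero relative to the primes) such that for ALL families as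
above, of all dimensions, with any number `s + 1` of parameters, and all different indices
`σ_0, …, σ_s`: for all but finitely many integers `t` outside `E` the variation of mixed Hodge
structure `V_z` at the integral point `z = (z_{σ_0}(t), …, z_{σ_s}(t))` has no atypical special
subvarieties.

The starting results on this problem treat families over elliptic curves and a positive proportion
of the variations in boxes; the box version for families with several integral parameters (`manyT` in
a helper file of the starting library) counts exceptions among all points of a box, and says nothing on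
thin sets of points as `(⌊P_0(t)⌋, …, ⌊P_s(t)⌋)`, which contain `N` of the `N^(c_0 + … + c_s)` points of
a box.

Proof. The tropical local criterion (`Pool.Agent.R424`, starting library) applies at an integral point
`z` if for all `l` a large prime divides `D_l(z) ≠ 0` but not the cofactors. As `D_l` has a rational
zero over a number field `K`, the set of the residues of such `z` has a density at least `1 / (2 p)` for
all large primes `p` with a prime ideal of degree one in `K`; the sum of `1 / p` over these primes
diverges (`Pool.Agent.Helper932`), and Turan's sieve with a fixed finite set of these primes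
(`Pool.Agent.N666.TM`, helper666) shows that almost all `t` are good. There are countably many pairs of a
divisor and a cofactor; a diagonal argument gives one set `E`. The uniform distribution of the
`⌊P_l(t)⌋` is due to exponential sums of the starting library (`Pool.Agent.Y961.JR`) and helper666.
-/

set_option autoImplicit false

namespace Pool.Agent.Results.MP_eeb1a4_ag.OneNullSet

open MvPolynomial NumberField
open Pool.Agent.R424.TG (OnS period image TropAt Compatible NoAtypicalHodge)
open Pool.Agent.R424.MP (HasOrd)

/-- The sets `S N ⊆ (N, 2 N]` along which densities are considered. -/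
def Scheme (S : ℕ → Finset ℕ) : Prop := ∀ N, S N ⊆ Finset.Ioc N (2 * N)

/-- `E` has density zero relative to the sets `S N`. -/
def NullIn (S : ℕ → Finset ℕ) (E : Set ℕ) : Prop :=
  ∀ ε : ℝ, 0 < ε → ∃ N₀ : ℕ, ∀ N : ℕ, N₀ ≤ N →
    ({t : ℕ | t ∈ S N ∧ t ∈ E}.ncard : ℝ) ≤ ε * (S N).card

/-- Any finite number of the functions `z l` is jointly uniformly distributed modulo all `q`, for `t`
in the sets `S N`, `N → ∞`. -/
def UD (S : ℕ → Finset ℕ) (z : ℕ → ℕ → ℤ) : Prop :=
  ∀ (r : ℕ) (σ : Fin r → ℕ), Function.Injective σ → ∀ q : ℕ, 1 ≤ q → ∀ ρ : Fin r → ℤ,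
    Filter.Tendsto
      (fun N => ({t : ℕ | t ∈ S N ∧ ∀ i, (q : ℤ) ∣ z (σ i) t - ρ i}.ncard : ℝ) / (S N).card)
      Filter.atTop (nhds (1 / (q : ℝ) ^ r))

/-- The ring `ℤ[z_1, …, z_s][z_0]` of the polynomials in the parameters. -/
abbrev Param (s : ℕ) : Type := Polynomial (MvPolynomial (Fin s) ℤ)

/-- The value of a polynomial in the parameters at an integral point. -/
noncomputable def evalAt {s : ℕ} (z : Fin (s + 1) → ℤ) : Param s →+* ℂ :=
  Polynomial.eval₂RingHom (eval₂Hom (Int.castRingHom ℂ) (fun i => (z i.succ : ℂ))) (z 0 : ℂ)

/-- `D` is not zero and has a zero `z_0 = a / b` with polynomials `a`, `b ≠ 0` in `z_1, …, z_s` with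
coefficients in the ring of integers of some number field. -/
def RationalDivisor {s : ℕ} (D : Param s) : Prop :=
  D ≠ 0 ∧ ∃ (K : Type) (_ : Field K) (_ : NumberField K) (a b : MvPolynomial (Fin s) (𝓞 K)), b ≠ 0 ∧
    ∑ j ∈ Finset.range (D.natDegree + 1), map (algebraMap ℤ (𝓞 K)) (D.coeff j) * a ^ j *
      b ^ (D.natDegree - j) = 0

/-- For ALL arithmetic families of variations of mixed Hodge structure which satisfy the tropical
condition the members at the points `(z (σ 0) t, …, z (σ s) t)` have no atypical special
subvarieties, for all but finitely many `t` outside `E`. -/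
def AllFamilies (z : ℕ → ℕ → ℤ) (E : Set ℕ) : Prop :=
  ∀ (K : Subfield ℂ) [Countable K] (κ₀ κ : Type) [Finite κ] (s n k N m M : ℕ)
    (σ : Fin (s + 1) → ℕ) (_ : Function.Injective σ)
    (P : κ₀ → MvPolynomial (Fin N) (Param s)) (A B : Fin n → MvPolynomial (Fin N) (Param s))
    (U : Fin k → MvPolynomial (Fin N) (Param s))
    (W : κ → MvPolynomial ((Fin n ⊕ Fin k) ⊕ Fin N) (Param s))
    (_ : ∀ (x : Fin (s + 1) → ℤ) (y : Fin N → ℂ), OnS (evalAt x) P A B U y → ∀ q,
      eval₂ (evalAt x) (Sum.elim (period (evalAt x) A B U y) y) (W q) = 0)
    (D : Fin M → Param s) (_ : ∀ l, RationalDivisor (D l))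
    (e : Fin M → κ → (((Fin n ⊕ Fin k) ⊕ Fin N) →₀ ℕ) → ℕ)
    (_ : ∀ l q, ∀ β ∈ (W q).support, HasOrd (D l) ((W q).coeff β) (e l q β))
    (_ : ∀ (r : ℕ) (cls : Fin n → Option (Fin r)) (d : Fin n → ℕ) (L : Submodule ℚ (Fin k → ℚ)),
      (∀ i, 0 < d i) → r + Module.finrank ℚ L + m < n + k →
      ∃ l, ∀ w, (∀ q, TropAt (W q).support (e l q) w) → ¬ Compatible cls d L w)
    (Γ : Finset ℂ) (_ : ∀ γ ∈ Γ, IsAlgebraic ℚ γ) (_ : ∀ γ ∈ Γ, γ ∈ K),
    {t : ℕ | t ∉ E ∧ ¬ NoAtypicalHodge (algebraMap (Algebra.adjoin ℤ (Γ : Set ℂ)) ℂ) K m
      (image (evalAt (fun i => z (σ i) t)) P A B U)}.Finite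

/-- `c` is the largest exponent of the generalised polynomial `∑ a_x t ^ x`; it is positive and not an
integer and has a positive coefficient. -/
def Admissible (F : Finset ℝ) (a : ℝ → ℝ) (c : ℝ) : Prop :=
  c ∈ F ∧ (∀ x ∈ F, x ≤ c) ∧ 0 < c ∧ (∀ m : ℕ, c ≠ m) ∧ 0 < a c

/-- The integer part of the value at `t` of the generalised polynomial `P_l`. -/
noncomputable def value (F : ℕ → Finset ℝ) (a : ℕ → ℝ → ℝ) (l t : ℕ) : ℤ :=
  ⌊∑ x ∈ F l, a l x * (t : ℝ) ^ x⌋

/-- (1) If the functions `z l` are uniformly distributed modulo all `q` along `S₁` and along `S₂`, then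
there is ONE set `E`, null for both, such that for ALL arithmetic families of variations of mixed
Hodge structure the members at the points `(z (σ 0) t, …, z (σ s) t)` have no atypical special
subvarieties, for all but finitely many `t` outside `E`. (2) The integer parts of generalised
polynomials are uniformly distributed along the integers and along the primes. -/
theorem result :
    (∀ S₁ S₂ : ℕ → Finset ℕ, Scheme S₁ → Scheme S₂ → ∀ z : ℕ → ℕ → ℤ, UD S₁ z → UD S₂ z →
      ∃ E : Set ℕ, NullIn S₁ E ∧ NullIn S₂ E ∧ AllFamilies z E) ∧
    ∀ (F : ℕ → Finset ℝ) (a : ℕ → ℝ → ℝ) (c : ℕ → ℝ), (∀ l, Admissible (F l) (a l) (c l)) →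
      Function.Injective c → UD (fun N => Finset.Ioc N (2 * N)) (value F a) ∧
        UD (fun N => (Finset.Ioc N (2 * N)).filter Nat.Prime) (value F a) := by
  refine ⟨?_, fun F a c h hc => Pool.Agent.N924.TH.ud_fl h hc⟩
  intro S₁ S₂ hS₁ hS₂ z hz₁ hz₂
  obtain ⟨E, h1, h2, h3⟩ := Pool.Agent.N924.TH.one_null hS₁ hS₂ hz₁ hz₂
  refine ⟨E, h1, h2, ?_⟩
  intro K _ κ₀ κ _ s n k N m M σ hσ P A B U W hW D hD e he hgen Γ hΓ hΓK
  obtain ⟨P₀, G, hcop, hgood⟩ := Pool.Agent.N924.TH.member_good K (fun q => (W q).support)
    (fun q β => (W q).coeff β) D e he hgen Γ hΓ hΓK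
  let dt : Fin M → Pool.Agent.N924.TH.Dt := fun l =>
    { s := s, σ := σ, inj := hσ, h := D l, g := G l, h0 := (hD l).1, cop := hcop l
      root := (hD l).2, P₀ := P₀ }
  refine (Set.finite_iUnion fun l => h3 (dt l)).subset ?_
  rintro t ⟨ht, hbad⟩
  by_contra hcon
  rw [Set.mem_iUnion] at hcon
  push Not at hcon
  apply hbad
  refine Pool.Agent.R424.TG.noAtypicalHodge_of (hgood (fun i => z (σ i) t) fun l => ?_) ?_
  · by_contra hng
    exact hcon l ⟨ht, hng⟩
  · rintro x ⟨y, hy, rfl⟩
    refine ⟨fun j => hy.2.2 j, y, fun q => ?_⟩
    have h4 := hW (fun i => z (σ i) t) y hy q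
    rw [eval₂_eq'] at h4
    rw [← h4]
    refine Finset.sum_congr rfl fun β _ => ?_
    congr 1
    have h5 := Pool.Agent.N924.TH.evp_int (fun i => z (σ i) t)
    have h6 := Pool.Agent.N924.TH.map_evp (Int.castRingHom ℂ) (fun i => z (σ i) t)
      ((W q).coeff β)
    rw [h5] at h6
    exact h6

end Pool.Agent.Results.MP_eeb1a4_ag.OneNullSet
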