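import Pool.Agent.N603.TH.Vhs
import Pool.Agent.N618.RO.Base
import Pool.Agent.N24.RW.All

/-!
# MP_eeb1a4_ag: Zilber-Pink for mixed variations of Hodge structure along random orbits of thin groups
in families with several parameters

**The variations.** Let `P` be a system of polynomials in `y_1, …, y_N`, and let `A_i`, `B_i` (`i ≤ n`)
and `U_j` (`j ≤ k`) be polynomials in `y_1, …, y_N`, all with coefficients in `ℤ[t_1, …, t_r]`. For
`t ∈ ℤ^r` let `S_t ⊂ ℂ^N` be the set of the points `y` with `P(y) = 0`, `4 A_i(y)³ + 27 B_i(y)² ≠ 0`
for all `i` and `U_j(y) ≠ 0` for all `j` (`OnS`). Over `S_t` there are the elliptic curves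
`E_i : Y² = X³ + A_i X + B_i` and the invertible functions `U_j`, which give extensions of `ℤ` by
`ℤ(1)` (Kummer variations); the sum `V_t` of the variations `R¹π_{i*} ℤ` and of these extensions is an
admissible graded-polarizable variation of mixed Hodge structure (on the smooth part of `S_t`). The
quotient `Γ \ D` of its period domain is identified with `Y(1)^n × G_m^k = ℂ^n × (ℂ^×)^k`, and the
period map `Φ` is given by the `j`-invariants `6912 A_i³ / (4 A_i³ + 27 B_i²)` and the functions `U_j`
(`period`); `image` is `Φ(S_t)`. The Hodge subvarieties `Γ' \ D'` are the products `Z × C` of a special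
subvariety `Z` of `Y(1)^n` and a torsion coset `C`. (More generally the constants of `Z` can be integral
over the ring generated by a given finite set `Γ` of algebraic numbers, and `C` can be a coset of an
algebraic subgroup by a point whose coordinates are units over this ring.) `NoAtypicalHodge` says that
every irreducible constructible subset `W` of `Φ(S_t) ∩ (Z × C)` satisfies
`dim W + (n + k - m) ≤ dim (Z × C)`, so that, if `dim Φ(S_t) = m`, the atypical Hodge locus of `V_t` is
empty. (All these are definitions of the starting file `TropicalEllipticFamilies`.)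

**The condition** (`Family`). Let `Q` be a finite system of polynomials which vanish at all points
`(Φ(y), y)`, `y ∈ S_t`, with coefficients in `ℤ[t_1, …, t_r]`. Let `f_1, …, f_M` be nonzero polynomials
in `t_1, …, t_r`, such that each coefficient of `Q` is `f_l ^ e_l · g` with `g ∣ G_l`, and the
hypersurface `f_l = 0` has many points outside of `G_l = 0` modulo primes (`Rich`): either `f_l` is of
degree one in one of the variables and coprime to `G_l` (`LinearIn`; for instance if `f_l = 0` is a
hyperplane), or, more generally, the sum over all primes `p` of the number of these points modulo `p`,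
divided by `p ^ r`, diverges. The tropicalization along `f_l` is the set of the `w` in
`(ℚ ∪ {∞})^(n + k + N)` such that for every polynomial of the system the minimum of the numbers
`e_l (coefficient) + β · w` is attained at two different exponents `β` or is infinite (`TropAt`). The
condition `GenericOrders` says that for every type of Hodge subvarieties of dimension less than
`n + k - m` there is an `l` such that no point of the tropicalization along `f_l` is compatible with
the type.

**Random orbits.** Let `s_0, …, s_m ∈ SL_r(ℤ)` be finitely many matrices which generate `SL_r(ℤ / q)`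
for all `q` prime to some `q₀` (`Walk`). By strong approximation every finite set of matrices which
generates a Zariski dense subgroup of `SL_r` has this property; this subgroup can be a thin group, of
infinite index in `SL_r(ℤ)`. The random orbit of a vector `v ≠ 0` is `v, s_{w 0} v, s_{w 1} s_{w 0} v, …`
with independent, uniformly distributed indices `w 0, w 1, …` (`orb`, `words`).

**Theorem.** For all `s_0, …, s_m` and `v` as above, with probability one the random orbit has the
following property: for ALL families with the condition (all `n`, `k`, `N`, `m`, all bases, elliptic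
curves and functions, all `Γ`) the member `V_t` at the `j`-th point `t` of the orbit has no atypical
Hodge subvarieties in the above sense for all `j` outside of a set of density zero.

The starting file `TropicalEllipticFamilies` is about almost all points of an elliptic curve over a
number field, and `RandomVariations` about a positive proportion of the integral parameters of a
universal family. Here the points of the orbit grow exponentially, so that only very few of the about
`T ^ r` parameters with `|t| ≤ T` occur, and the orbit may be that of a group of infinite index.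

Proof. By the sieve (`Pool.Agent.N24.RW`) the vectors `t` such that for no prime `p > D` the value
`f_l(t)` is divisible by `p` and `G_l(t)` is not, form a set with closure of measure zero, as the sum of
the densities of the local conditions diverges, and by the ergodic theorem for the walks on the finite
sets `SL_r(ℤ / q) v` a random orbit meets such a set only at a set of times of density zero. There are
countably many conditions `(f, G, D)`. At places of `ℂ` above `p` the values of the coefficients of `Q`
are `e_l · v(f_l(t))`, and the tropical criterion of the starting library applies.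
-/

set_option autoImplicit false

namespace Pool.Agent.Results.MP_eeb1a4_ag.RandomOrbits

open MvPolynomial MeasureTheory Filter Topology
open Pool.Agent.R424.TG (OnS period image GenericOrders NoAtypicalHodge)
open Pool.Agent.N24.RW (Walk orb words)

/-- The value of a polynomial in the parameters at the integral point `t`. -/
noncomputable def valueAt {r : ℕ} (t : Fin r → ℤ) : MvPolynomial (Fin r) ℤ →+* ℂ :=
  (Int.castRingHom ℂ).comp (eval t)

/-- `f` is of degree one in the variable `i`, and coprime to `G` with respect to this variable. -/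
def LinearIn {r : ℕ} (i : Fin r) (f G : MvPolynomial (Fin r) ℤ) : Prop :=
  ∃ a b u v R : MvPolynomial (Fin r) ℤ, i ∉ a.vars ∧ i ∉ b.vars ∧ i ∉ R.vars ∧ a ≠ 0 ∧
    R ≠ 0 ∧ f = a * X i + b ∧ u * f + v * G = R

/-- The hypersurface `f = 0` has many points outside of `G = 0` modulo primes: `f` is of degree one in
a variable and coprime to `G`, or the sum over the primes `p` of the densities of the points of `f = 0`
outside of `G = 0` modulo `p` diverges. -/
def Rich {r : ℕ} (f G : MvPolynomial (Fin r) ℤ) : Prop :=
  (∃ i, LinearIn i f G) ∨ (f ≠ 0 ∧ ¬ Summable fun p : ℕ => if p.Prime then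
    ({v : Fin r → ZMod p | aeval v f = 0 ∧ aeval v G ≠ 0}.ncard : ℝ) / (p : ℝ) ^ r else 0)

/-- A family with `r` integral parameters of variations of mixed Hodge structure which are given by
`n` elliptic curves and `k` invertible functions, and which satisfies the tropical condition. -/
structure Family (r : ℕ) where
  n : ℕ
  k : ℕ
  N : ℕ
  m : ℕ
  M : ℕ
  κ₀ : Type
  κ : Type
  fin : Finite κ
  P : κ₀ → MvPolynomial (Fin N) (MvPolynomial (Fin r) ℤ)
  A : Fin n → MvPolynomial (Fin N) (MvPolynomial (Fin r) ℤ)
  B : Fin n → MvPolynomial (Fin N) (MvPolynomial (Fin r) ℤ)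
  U : Fin k → MvPolynomial (Fin N) (MvPolynomial (Fin r) ℤ)
  Q : κ → MvPolynomial ((Fin n ⊕ Fin k) ⊕ Fin N) (MvPolynomial (Fin r) ℤ)
  vanish : ∀ (t : Fin r → ℤ) (y : Fin N → ℂ), OnS (valueAt t) P A B U y →
    ∀ q, eval₂ (valueAt t) (Sum.elim (period (valueAt t) A B U y) y) (Q q) = 0
  f : Fin M → MvPolynomial (Fin r) ℤ
  G : Fin M → MvPolynomial (Fin r) ℤ
  rich : ∀ l, Rich (f l) (G l)
  e : Fin M → κ → (((Fin n ⊕ Fin k) ⊕ Fin N) →₀ ℕ) → ℕ
  ord : ∀ l q, ∀ β ∈ (Q q).support, ∃ g, (Q q).coeff β = f l ^ e l q β * g ∧ g ∣ G l
  generic : GenericOrders m (fun q => (Q q).support) e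

/-- The member at `t` has no atypical Hodge subvarieties. -/
def Family.Typical {r : ℕ} (𝓕 : Family r) (Γ : Finset ℂ) (K : Subfield ℂ) (t : Fin r → ℤ) : Prop :=
  NoAtypicalHodge (algebraMap (Algebra.adjoin ℤ (Γ : Set ℂ)) ℂ) K 𝓕.m
    (image (valueAt t) 𝓕.P 𝓕.A 𝓕.B 𝓕.U)

theorem rich_iff {r : ℕ} {f G : MvPolynomial (Fin r) ℤ} (h : Rich f G) :
    f ≠ 0 ∧ Pool.Agent.N603.TH.Divergent f G := by
  rcases h with ⟨i, hi⟩ | h
  · exact ⟨Pool.Agent.N603.TH.linear_ne_zero hi, Pool.Agent.N603.TH.divergent_linear hi⟩
  · exact h

/-- The local criterion. -/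
theorem exceptional {r : ℕ} (𝓕 : Family r) (Γ : Finset ℂ) (K : Subfield ℂ) [Countable K]
    (hΓ : ∀ γ ∈ Γ, IsAlgebraic ℚ γ) (hΓK : ∀ γ ∈ Γ, γ ∈ K) :
    ∃ D : ℕ, {t | ¬ 𝓕.Typical Γ K t} ⊆ ⋃ l, Pool.Agent.N618.RO.Bd (𝓕.f l) (𝓕.G l) D := by
  have := 𝓕.fin
  obtain ⟨D, hD⟩ := Pool.Agent.N603.TH.local_member K 𝓕.Q 𝓕.f 𝓕.G 𝓕.e 𝓕.ord 𝓕.generic Γ hΓ hΓK
  refine ⟨D, fun t ht => ?_⟩
  by_contra hcon
  apply ht
  simp only [Set.mem_iUnion, Pool.Agent.N618.RO.Bd, Set.mem_ofPred_eq, not_exists, not_not] at hcon
  exact Pool.Agent.R424.TG.noAtypicalHodge_of (hD t fun l => hcon l)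
    (Pool.Agent.N603.TH.image_sub t 𝓕.P 𝓕.A 𝓕.B 𝓕.U 𝓕.Q (𝓕.vanish t))

/-- **Zilber-Pink for mixed variations of Hodge structure along random orbits**: along almost every
random orbit, for all families with the tropical condition, the members at almost all times have no
atypical Hodge subvarieties. -/
theorem result (r : ℕ) (hr : 2 ≤ r) (W : Walk (Fin r)) (v : Fin r → ℤ) (hv : v ≠ 0) :
    ∀ᵐ w ∂(words W.m), ∀ (𝓕 : Family r) (Γ : Finset ℂ) (K : Subfield ℂ) [Countable K],
      (∀ γ ∈ Γ, IsAlgebraic ℚ γ) → (∀ γ ∈ Γ, γ ∈ K) →
        Tendsto (fun X : ℕ => (({j : ℕ | j < X ∧ ¬ 𝓕.Typical Γ K (orb W v w j)}.ncard : ℕ) : ℝ) /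
          (X : ℝ)) atTop (𝓝 0) := by
  have h0 := Pool.Agent.N618.RO.ae_all Pool.Agent.N24.RW.crit Pool.Agent.N24.RW.clo
    Pool.Agent.N24.RW.main hr W v hv
  filter_upwards [h0] with w hw 𝓕 Γ K _ hΓ hΓK
  obtain ⟨D, hD⟩ := exceptional 𝓕 Γ K hΓ hΓK
  have h1 : Pool.Agent.N618.RO.Rare (⋃ l, {j | orb W v w j ∈
      Pool.Agent.N618.RO.Bd (𝓕.f l) (𝓕.G l) D}) :=
    Pool.Agent.N618.RO.rare_iUnion _ fun l => by
      obtain ⟨h1, h2⟩ := rich_iff (𝓕.rich l)
      exact hw _ _ D h1 h2
  refine h1.mono (S := {j | ¬ 𝓕.Typical Γ K (orb W v w j)}) fun j hj => ?_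
  have h2 := hD (show orb W v w j ∈ {t | ¬ 𝓕.Typical Γ K t} from hj)
  simpa using h2

end Pool.Agent.Results.MP_eeb1a4_ag.RandomOrbits
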